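import Pool.Agent.H.MP_ac3292_al.A

set_option autoImplicit false

open Set

namespace Pool.Agent.H.MP_a3803f_an

def Nag {E : Type} [PseudoMetricSpace E] (X : Set E) (d : ℕ) : Prop :=
  ∃ c > (0 : ℝ), ∀ s > (0 : ℝ), ∃ C : Set (Set E), ⋃₀ C = X ∧
    (∀ U ∈ C, ∀ x ∈ U, ∀ y ∈ U, dist x y ≤ c * s) ∧
    ∀ A ⊆ X, (∀ x ∈ A, ∀ y ∈ A, dist x y ≤ s) → {U ∈ C | (U ∩ A).Nonempty}.encard ≤ d + 1

lemma Nag.mono {E : Type} [PseudoMetricSpace E] {X : Set E} {d d' : ℕ} (h : Nag X d)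
    (hd : d ≤ d') : Nag X d' := by
  obtain ⟨c, hc, h⟩ := h
  refine ⟨c, hc, fun s hs => ?_⟩
  obtain ⟨C, h1, h2, h3⟩ := h s hs
  exact ⟨C, h1, h2, fun A hA h => (h3 A hA h).trans (by gcongr)⟩

lemma ediv_eq {M a b : ℤ} (hM : 0 < M) (ha : a % M ≠ 0) (hb : b % M ≠ 0) (h : |a - b| ≤ 1) :
    a / M = b / M := by
  have key : ∀ a : ℤ, (a + 1) % M ≠ 0 → (a + 1) / M = a / M := by
    intro a h
    have h1 := Int.emod_nonneg a hM.ne'
    have h2 := Int.emod_lt_of_pos a hM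
    have h3 := Int.emod_add_mul_ediv a M
    by_cases h4 : a % M + 1 < M
    · exact ((Int.ediv_emod_unique (r := a % M + 1) hM).2 ⟨by linarith, by linarith, h4⟩).1
    · exfalso
      apply h
      have : a + 1 = M * (a / M + 1) := by linarith
      rw [this, Int.mul_emod_right]
  rw [abs_le] at h
  have : a = b ∨ a = b + 1 ∨ b = a + 1 := by omega
  rcases this with rfl | rfl | rfl
  exacts [rfl, key _ ha, (key _ hb).symm]

lemma upper {E : Type} [PseudoMetricSpace E] {X : Set E} {κ : Type} [Fintype κ] (p : E → κ → ℝ)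
    (L : ℝ) (hL : 0 < L) (h1 : ∀ x y j, |p x j - p y j| ≤ dist x y)
    (h2 : ∀ x ∈ X, ∀ y ∈ X, ∀ t, 0 ≤ t → (∀ j, |p x j - p y j| ≤ t) → dist x y ≤ L * t) :
    Nag X (Fintype.card κ) := by
  classical
  obtain ⟨m, hm⟩ : ∃ m, m = Fintype.card κ := ⟨_, rfl⟩
  have hM : (0 : ℤ) < m + 1 := by positivity
  refine ⟨L * (m + 2), by positivity, fun s hs => ?_⟩
  let t : E → κ → ℤ := fun x j => ⌊p x j / s⌋
  let U : Fin (m + 1) × (κ → ℤ) → Set E := fun q =>
    {x ∈ X | ∀ j, (t x j - (q.1 : ℕ)) % (m + 1) ≠ 0 ∧ (t x j - (q.1 : ℕ)) / (m + 1) = q.2 j}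
  refine ⟨range U, ?_, ?_, fun A hA h => ?_⟩
  · apply Subset.antisymm
    · rintro x ⟨_, ⟨q, rfl⟩, hx⟩
      exact hx.1
    · intro x hx
      let b : κ → Fin (m + 1) := fun j => ⟨(t x j % (m + 1)).toNat, by
        have := Int.emod_lt_of_pos (t x j) hM
        have := Int.emod_nonneg (t x j) hM.ne'
        omega⟩
      obtain ⟨i, hi⟩ : ∃ i, i ∉ range b := by
        by_contra h
        push Not at h
        have := Fintype.card_le_of_surjective b h
        simp only [Fintype.card_fin] at this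
        omega
      refine ⟨U (i, fun j => (t x j - (i : ℕ)) / (m + 1)), ⟨_, rfl⟩, hx, fun j => ⟨fun h => ?_, rfl⟩⟩
      apply hi
      refine ⟨j, Fin.ext ?_⟩
      have h3 : t x j % (m + 1) = ((i : ℕ) : ℤ) % (m + 1) := (Int.emod_emod_of_dvd _ dvd_rfl).symm.trans
        (by rw [Int.emod_emod_of_dvd _ dvd_rfl]; exact (Int.emod_eq_emod_iff_emod_sub_eq_zero.2 h))
      have h4 : ((i : ℕ) : ℤ) % (m + 1) = (i : ℕ) :=
        Int.emod_eq_of_lt (by positivity) (by have := i.2; omega)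
      simp only [b, h3, h4, Int.toNat_natCast]
  · rintro _ ⟨q, rfl⟩ x hx y hy
    rw [mul_assoc]
    refine h2 x hx.1 y hy.1 _ (by positivity) fun j => ?_
    have a1 := Int.emod_add_mul_ediv (t x j - (q.1 : ℕ)) (m + 1)
    have a2 := Int.emod_add_mul_ediv (t y j - (q.1 : ℕ)) (m + 1)
    have a3 := Int.emod_nonneg (t x j - (q.1 : ℕ)) hM.ne'
    have a4 := Int.emod_lt_of_pos (t x j - (q.1 : ℕ)) hM
    have a5 := Int.emod_nonneg (t y j - (q.1 : ℕ)) hM.ne'
    have a6 := Int.emod_lt_of_pos (t y j - (q.1 : ℕ)) hM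
    rw [(hx.2 j).2] at a1
    rw [(hy.2 j).2] at a2
    have b1 : t x j - t y j ≤ m + 1 := by linarith
    have b2 : t y j - t x j ≤ m + 1 := by linarith
    have c1 : (t x j : ℝ) - t y j ≤ m + 1 := by exact_mod_cast b1
    have c2 : (t y j : ℝ) - t x j ≤ m + 1 := by exact_mod_cast b2
    have d1 := Int.floor_le (p x j / s)
    have d2 := Int.lt_floor_add_one (p x j / s)
    have d3 := Int.floor_le (p y j / s)
    have d4 := Int.lt_floor_add_one (p y j / s)
    have e1 : |p x j / s - p y j / s| ≤ m + 2 := by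
      rw [abs_le]; constructor <;> linarith
    rwa [← sub_div, abs_div, abs_of_pos hs, div_le_iff₀ hs] at e1
  · have key : ∀ i k k', (U (i, k) ∩ A).Nonempty → (U (i, k') ∩ A).Nonempty → k = k' := by
      rintro i k k' ⟨x, hx, hxA⟩ ⟨y, hy, hyA⟩
      ext j
      refine ((hx.2 j).2.symm.trans ?_).trans (hy.2 j).2
      refine ediv_eq hM (hx.2 j).1 (hy.2 j).1 ?_
      have e1 : |p x j / s - p y j / s| ≤ 1 := by
        rw [← sub_div, abs_div, abs_of_pos hs, div_le_one hs]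
        exact (h1 x y j).trans (h x hxA y hyA)
      have d1 := Int.floor_le (p x j / s)
      have d2 := Int.lt_floor_add_one (p x j / s)
      have d3 := Int.floor_le (p y j / s)
      have d4 := Int.lt_floor_add_one (p y j / s)
      rw [abs_le] at e1
      have c1 : (t x j : ℝ) < t y j + 2 := by linarith [e1.2]
      have c2 : (t y j : ℝ) < t x j + 2 := by linarith [e1.1]
      have b1 : t x j < t y j + 2 := by exact_mod_cast c1
      have b2 : t y j < t x j + 2 := by exact_mod_cast c2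
      simp only
      rw [abs_le]
      omega
    let g : Fin (m + 1) → Set E := fun i =>
      if h : ∃ k, (U (i, k) ∩ A).Nonempty then U (i, h.choose) else ∅
    have hsub : {V ∈ range U | (V ∩ A).Nonempty} ⊆ g '' univ := by
      rintro _ ⟨⟨⟨i, k⟩, rfl⟩, hk⟩
      have h' : ∃ k, (U (i, k) ∩ A).Nonempty := ⟨k, hk⟩
      exact ⟨i, trivial, by simp only [g, dif_pos h', key i _ k h'.choose_spec hk]⟩
    refine (encard_le_encard hsub).trans ((encard_image_le _ _).trans ?_)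
    simp [hm]

lemma lower {E : Type} [PseudoMetricSpace E] {X : Set E} {k : ℕ} (G : (Fin (k + 1) → ℤ) → E)
    (C0 C1 : ℝ) (h1 : ∀ x y j, |(x j : ℝ) - y j| ≤ dist (G x) (G y))
    (h2 : ∀ x y, (∀ j, |x j - y j| ≤ 1) → dist (G x) (G y) ≤ C1)
    (h3 : ∀ x, ∃ y ∈ X, dist (G x) y ≤ C0) : ¬ Nag X k := by
  rintro ⟨c, hc, h⟩
  choose Φ hΦ hd using h3
  obtain ⟨C, a1, a2, a3⟩ := h (|C1 + 2 * C0| + 1) (by positivity)
  have : ∀ x, ∃ U ∈ C, Φ x ∈ U := fun x => by
    have := hΦ x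
    rw [← a1] at this
    exact this
  choose U hU hx using this
  obtain ⟨x, b1, b2⟩ := Pool.Agent.H.MP_ac3292_al.leb (k + 1) k.succ_pos U
    ⌈c * (|C1 + 2 * C0| + 1) + 2 * C0⌉₊ (fun x y hxy j => by
      have e1 := a2 _ (hU x) _ (hx x) _ (hxy ▸ hx y)
      have e2 := dist_triangle4 (G x) (Φ x) (Φ y) (G y)
      have e3 := hd y
      rw [dist_comm] at e3
      have e4 : |(x j : ℝ) - y j| ≤ ⌈c * (|C1 + 2 * C0| + 1) + 2 * C0⌉₊ :=
        le_trans (by linarith [h1 x y j, hd x]) (Nat.le_ceil _)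
      exact_mod_cast e4)
  have b3 := a3 (range fun i => Φ (x i)) (by rintro _ ⟨i, rfl⟩; exact hΦ _) (by
    rintro _ ⟨i, rfl⟩ _ ⟨j, rfl⟩
    have e2 := dist_triangle4 (Φ (x i)) (G (x i)) (G (x j)) (Φ (x j))
    have e3 := hd (x i)
    rw [dist_comm] at e3
    linarith [h2 _ _ (b2 i j), hd (x j), le_abs_self (C1 + 2 * C0)])
  have b4 : (fun i => U (x i)) '' univ ⊆ {V ∈ C | (V ∩ range fun i => Φ (x i)).Nonempty} := by
    rintro _ ⟨i, -, rfl⟩
    exact ⟨hU _, _, hx _, i, rfl⟩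
  have b5 := (encard_le_encard b4).trans b3
  rw [b1.encard_image] at b5
  simp at b5
  norm_cast at b5
  omega

end Pool.Agent.H.MP_a3803f_an
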