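import Pool.Agent.H.MP_a3803f_an.A

set_option autoImplicit false

open Set Real

namespace Pool.Agent.H.MP_a3803f_an

variable {n : ℕ}

abbrev V (n : ℕ) := EuclideanSpace ℝ (Fin n)

noncomputable abbrev e (a : Fin n) : V n := EuclideanSpace.single a 1

noncomputable abbrev pr (a : Fin n) : V n →L[ℝ] ℝ := EuclideanSpace.proj a

noncomputable def md (a b : Fin n) (u v : V n → ℝ) (x : V n) : V n :=
  x + (u x - x a) • e a + (v x - x b) • e b

noncomputable def mdD (a b : Fin n) (u v : V n →L[ℝ] ℝ) : V n →L[ℝ] V n :=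
  ContinuousLinearMap.id ℝ _ + (u - pr a).smulRight (e a) + (v - pr b).smulRight (e b)

lemma md_a {a b : Fin n} (h : a ≠ b) (u v : V n → ℝ) (x : V n) : md a b u v x a = u x := by
  simp [md, h]

lemma md_b {a b : Fin n} (h : a ≠ b) (u v : V n → ℝ) (x : V n) : md a b u v x b = v x := by
  simp [md, h.symm]

lemma md_o {a b j : Fin n} (ha : j ≠ a) (hb : j ≠ b) (u v : V n → ℝ) (x : V n) :
    md a b u v x j = x j := by
  simp [md, ha, hb]

lemma md_deriv (a b : Fin n) {u v : V n → ℝ} {u' v' : V n →L[ℝ] ℝ} {x : V n}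
    (hu : HasFDerivAt u u' x) (hv : HasFDerivAt v v' x) :
    HasFDerivAt (md a b u v) (mdD a b u' v') x :=
  ((hasFDerivAt_id x).add ((hu.sub (pr a).hasFDerivAt).smul_const (e a))).add
    ((hv.sub (pr b).hasFDerivAt).smul_const (e b))

lemma pr_norm (a : Fin n) : ‖pr a‖ ≤ 1 :=
  ContinuousLinearMap.opNorm_le_bound _ zero_le_one fun x => by
    simpa using PiLp.norm_apply_le x a

lemma mdD_norm (a b : Fin n) (u v : V n →L[ℝ] ℝ) : ‖mdD a b u v‖ ≤ 3 + ‖u‖ + ‖v‖ := by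
  have h1 := ContinuousLinearMap.norm_id_le (𝕜 := ℝ) (E := V n)
  have h2 : ∀ (w : V n →L[ℝ] ℝ) (c : Fin n), ‖(w - pr c).smulRight (e c)‖ ≤ ‖w‖ + 1 := by
    intro w c
    rw [ContinuousLinearMap.norm_smulRight_apply]
    simp only [PiLp.norm_single, norm_one, mul_one]
    exact (norm_sub_le _ _).trans (by linarith [pr_norm c])
  have h3 := norm_add₃_le (a := ContinuousLinearMap.id ℝ (V n)) (b := (u - pr a).smulRight (e a))
    (c := (v - pr b).smulRight (e b))
  unfold mdD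
  linarith [h2 u a, h2 v b]

lemma mdD_det {a b : Fin n} (h : a ≠ b) (u v : V n →L[ℝ] ℝ) :
    (mdD a b u v).det = u (e a) * v (e b) - u (e b) * v (e a) := by
  classical
  let β := (EuclideanSpace.basisFun (Fin n) ℝ).toBasis
  let A : Matrix (Fin n) (Fin 2) ℝ := Matrix.of fun i k => ![e a i, e b i] k
  let B : Matrix (Fin 2) (Fin n) ℝ :=
    Matrix.of fun k j => ![(u - pr a) (e j), (v - pr b) (e j)] k
  have h1 : LinearMap.toMatrix β β (mdD a b u v : V n →ₗ[ℝ] V n) = 1 + A * B := by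
    ext i j
    simp [LinearMap.toMatrix_apply, β, A, B, mdD, Matrix.mul_apply, Fin.sum_univ_two,
      Matrix.one_apply, mul_comm, add_assoc]
  rw [ContinuousLinearMap.det, ← LinearMap.det_toMatrix β, h1, Matrix.det_one_add_mul_comm,
    Matrix.det_fin_two]
  simp [A, B, Matrix.mul_apply, h, h.symm]

lemma dist_le {x y : V n} {t : ℝ} (ht : 0 ≤ t) (h : ∀ j, |x j - y j| ≤ t) :
    dist x y ≤ (n + 1) * t := by
  rw [EuclideanSpace.dist_eq, Real.sqrt_le_iff]
  refine ⟨by positivity, ?_⟩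
  have : ∑ i, dist (x i) (y i) ^ 2 ≤ ∑ _i : Fin n, t ^ 2 :=
    Finset.sum_le_sum fun i _ => by
      rw [Real.dist_eq]
      exact pow_le_pow_left₀ (abs_nonneg _) (h i) 2
  simp only [Finset.sum_const, Finset.card_univ, Fintype.card_fin, nsmul_eq_mul] at this
  have h0 : (0 : ℝ) ≤ n := by positivity
  nlinarith [mul_nonneg h0 (sq_nonneg t), mul_nonneg (mul_nonneg h0 h0) (sq_nonneg t), sq_nonneg t]

lemma le_dist (x y : V n) (j : Fin n) : |x j - y j| ≤ dist x y := by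
  simpa [Real.dist_eq] using PiLp.dist_apply_le x y j

noncomputable def R (a b : Fin n) (x : V n) : ℝ := x a + √(x b) + π

noncomputable def F (a b : Fin n) : V n → V n :=
  md a b (fun x => R a b x * cos √(x b)) (fun x => R a b x * sin √(x b))

def Om (a b : Fin n) : Set (V n) := {x | |x a| < π ∧ 1 < x b}

lemma opn1 (a : Fin n) : IsOpen {x : V n | |x a| < π} := isOpen_lt (by fun_prop) continuous_const

lemma Om_open (a b : Fin n) : IsOpen (Om a b) :=
  (opn1 a).inter (isOpen_lt (f := fun _ => (1 : ℝ)) (g := fun x : V n => x b) continuous_const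
    (by fun_prop))

lemma cvx1 (a : Fin n) : Convex ℝ {x : V n | |x a| < π} := by
  have := (convex_Ioo (𝕜 := ℝ) (-π) π).linear_preimage (pr a : V n →ₗ[ℝ] ℝ)
  have h : {x : V n | |x a| < π} = (pr a : V n →ₗ[ℝ] ℝ) ⁻¹' Ioo (-π) π := by
    ext x
    simp [abs_lt]
  rwa [h]

lemma Om_convex (a b : Fin n) : Convex ℝ (Om a b) :=
  (cvx1 a).inter ((convex_Ioi (𝕜 := ℝ) (1 : ℝ)).linear_preimage (pr b : V n →ₗ[ℝ] ℝ))

lemma F_smooth (a b : Fin n) {x : V n} (hx : x ∈ Om a b) : ContDiffAt ℝ 1 (F a b) x := by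
  have h0 : x b ≠ 0 := by linarith [hx.2]
  have h1 : ∀ c : Fin n, ContDiffAt ℝ 1 (fun x : V n => x c) x := fun c => (pr c).contDiff.contDiffAt
  have h2 : ContDiffAt ℝ 1 (fun x : V n => √(x b)) x := (h1 b).sqrt h0
  have h3 : ContDiffAt ℝ 1 (R a b) x := ((h1 a).add h2).add contDiffAt_const
  exact (contDiffAt_id.add (((h3.mul h2.cos).sub (h1 a)).smul contDiffAt_const)).add
    (((h3.mul h2.sin).sub (h1 b)).smul contDiffAt_const)

lemma F_deriv {a b : Fin n} (h : a ≠ b) {x : V n} (hx : x ∈ Om a b) :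
    ‖fderiv ℝ (F a b) x‖ ≤ 17 ∧ 1 / 2 ≤ (fderiv ℝ (F a b) x).det := by
  have h0 : x b ≠ 0 := by linarith [hx.2]
  have h1 : ∀ c : Fin n, HasFDerivAt (fun x : V n => x c) (pr c) x := fun c => (pr c).hasFDerivAt
  have h2 := (h1 b).sqrt h0
  have h3 : HasFDerivAt (R a b) _ x := ((h1 a).add h2).add_const π
  have h4 : HasFDerivAt (F a b) _ x := md_deriv a b (h3.mul h2.cos) (h3.mul h2.sin)
  rw [h4.fderiv]
  obtain ⟨φ, hφ⟩ : ∃ φ, φ = √(x b) := ⟨_, rfl⟩
  have hφ1 : 1 ≤ φ := hφ ▸ Real.le_sqrt_of_sq_le (by linarith [hx.2])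
  have hR := abs_lt.1 hx.1
  have hR1 : φ ≤ R a b x := by rw [R, ← hφ]; linarith
  have hR2 : R a b x ≤ 9 * φ := by rw [R, ← hφ]; linarith [pi_le_four]
  rw [← hφ]
  constructor
  · have k1 : ‖(1 / (2 * φ)) • pr b‖ ≤ 1 / (2 * φ) := by
      rw [norm_smul, Real.norm_of_nonneg (by positivity)]
      exact mul_le_of_le_one_right (by positivity) (pr_norm b)
    have k2 : 1 / (2 * φ) ≤ 1 / 2 := by gcongr; linarith
    have k3 : ‖pr a + (1 / (2 * φ)) • pr b‖ ≤ 2 := (norm_add_le _ _).trans (by linarith [pr_norm a])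
    have k4 : ∀ s t : ℝ, |s| ≤ 1 → |t| ≤ 1 →
        ‖R a b x • s • (1 / (2 * φ)) • pr b + t • (pr a + (1 / (2 * φ)) • pr b)‖ ≤ 7 := by
      intro s t hs ht
      refine (norm_add_le _ _).trans ?_
      rw [norm_smul, norm_smul, norm_smul t, Real.norm_of_nonneg (by linarith : 0 ≤ R a b x),
        Real.norm_eq_abs, Real.norm_eq_abs]
      have k5 : R a b x * (|s| * ‖(1 / (2 * φ)) • pr b‖) ≤ 9 * φ * (1 * (1 / (2 * φ))) := by
        gcongr
      have k6 : |t| * ‖pr a + (1 / (2 * φ)) • pr b‖ ≤ 1 * 2 := by gcongr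
      have k7 : 9 * φ * (1 * (1 / (2 * φ))) = 9 / 2 := by field_simp
      linarith
    refine (mdD_norm _ _ _ _).trans ?_
    linarith [k4 (-sin φ) (cos φ) (by rw [abs_neg]; exact abs_sin_le_one _) (abs_cos_le_one _),
      k4 (cos φ) (sin φ) (abs_cos_le_one _) (abs_sin_le_one _)]
  · rw [mdD_det h]
    have k1 : 1 / 2 ≤ R a b x / (2 * φ) := by
      rw [le_div_iff₀ (by positivity)]; linarith
    refine k1.trans (le_of_eq ?_)
    have := sin_sq_add_cos_sq φ
    simp [h, h.symm]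
    field_simp
    linear_combination (-R a b x) * this

lemma F_inj {a b : Fin n} (h : a ≠ b) : InjOn (F a b) (Om a b) := by
  intro x hx y hy hxy
  have h1 : R a b x * cos √(x b) = R a b y * cos √(y b) := by
    have := congrArg (fun z : V n => z a) hxy
    simpa only [F, md_a h] using this
  have h2 : R a b x * sin √(x b) = R a b y * sin √(y b) := by
    have := congrArg (fun z : V n => z b) hxy
    simpa only [F, md_b h] using this
  have hp : ∀ z ∈ Om a b, 0 < R a b z := fun z hz => by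
    have := Real.sqrt_pos.2 (by linarith [hz.2] : 0 < z b)
    rw [R]
    linarith [(abs_lt.1 hz.1).1]
  have h3 : R a b x = R a b y := by
    rw [← sq_eq_sq₀ (hp x hx).le (hp y hy).le]
    linear_combination (R a b x * cos √(x b) + R a b y * cos √(y b)) * h1 +
      (R a b x * sin √(x b) + R a b y * sin √(y b)) * h2 -
      R a b x ^ 2 * sin_sq_add_cos_sq √(x b) + R a b y ^ 2 * sin_sq_add_cos_sq √(y b)
  rw [h3] at h1 h2
  obtain ⟨k, hk⟩ := Real.Angle.angle_eq_iff_two_pi_dvd_sub.1 (Real.Angle.cos_sin_inj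
    (mul_left_cancel₀ (hp y hy).ne' h1) (mul_left_cancel₀ (hp y hy).ne' h2))
  have h4 := abs_lt.1 hx.1
  have h5 := abs_lt.1 hy.1
  simp only [R] at h3
  have h6 : (k : ℝ) < 1 := by
    by_contra h7
    nlinarith [pi_pos]
  have h7 : (-1 : ℝ) < k := by
    by_contra h7
    nlinarith [pi_pos]
  have h8 : k = 0 := by
    have a1 : k < 1 := by exact_mod_cast h6
    have a2 : -1 < k := by exact_mod_cast h7
    omega
  rw [h8, Int.cast_zero, mul_zero, sub_eq_zero] at hk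
  ext j
  by_cases ha : j = a
  · rw [ha]; linarith
  by_cases hb : j = b
  · rw [hb]
    exact (Real.sqrt_inj (by linarith [hx.2]) (by linarith [hy.2])).1 hk
  have := congrArg (fun z : V n => z j) hxy
  simpa only [F, md_o ha hb] using this

lemma F_nhds {a b : Fin n} (h : a ≠ b) {x : V n} (hx : x ∈ Om a b) :
    Filter.map (F a b) (nhds x) = nhds (F a b x) := by
  have h1 := (F_smooth a b hx).hasStrictFDerivAt one_ne_zero
  have h2 : (fderiv ℝ (F a b) x).det ≠ 0 := by linarith [(F_deriv h hx).2]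
  rw [← ContinuousLinearMap.coe_toContinuousLinearEquivOfDetNeZero _ h2] at h1
  exact h1.map_nhds_eq_of_equiv

lemma F_cont (a b : Fin n) : ContinuousOn (F a b) (Om a b) := fun _ hx =>
  (F_smooth a b hx).continuousAt.continuousWithinAt

lemma F_emb {a b : Fin n} (h : a ≠ b) :
    Topology.IsOpenEmbedding fun x : Om a b => F a b x := by
  refine .of_continuous_injective_isOpenMap (F_cont a b).domRestrict
    (injOn_iff_injective.1 (F_inj h)) (isOpenMap_iff_nhds_le.2 fun x => ?_)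
  rw [← F_nhds h x.2, ← (Om_open a b).isOpenEmbedding_subtypeVal.map_nhds_eq, Filter.map_map]
  rfl

lemma F_net {a b : Fin n} (h : a ≠ b) (p : V n) : ∃ x : V n, x a = 0 ∧ 1 < x b ∧
    (∀ j, j ≠ a → j ≠ b → x j = p j) ∧ dist p (F a b x) ≤ (n + 1) * 14 := by
  let z : ℂ := ⟨p a, p b⟩
  obtain ⟨φ, hφ⟩ : ∃ φ, φ = toIcoMod two_pi_pos (‖z‖ + 2) z.arg := ⟨_, rfl⟩
  have h1 := toIcoMod_mem_Ico two_pi_pos (‖z‖ + 2) z.arg
  rw [← hφ] at h1
  have h2 : φ = z.arg - (toIcoDiv two_pi_pos (‖z‖ + 2) z.arg) * (2 * π) := by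
    rw [hφ, toIcoMod, zsmul_eq_mul]
  have h3 : ‖z‖ * cos φ = p a := by
    rw [h2, cos_sub_int_mul_two_pi, Complex.norm_mul_cos_arg]
  have h4 : ‖z‖ * sin φ = p b := by
    rw [h2, sin_sub_int_mul_two_pi, Complex.norm_mul_sin_arg]
  have h5 := norm_nonneg z
  let x : V n := md a b (fun _ => 0) (fun _ => φ ^ 2) p
  have ha : x a = 0 := md_a h _ _ _
  have hb : x b = φ ^ 2 := md_b h _ _ _
  have hs : √(x b) = φ := by rw [hb, Real.sqrt_sq (by linarith [h1.1])]
  have hR : |‖z‖ - R a b x| ≤ 14 := by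
    rw [R, ha, hs, abs_le]
    constructor <;> linarith [h1.1, h1.2, pi_pos, pi_le_four]
  refine ⟨x, ha, by rw [hb]; nlinarith [h1.1], fun j h6 h7 => md_o h6 h7 _ _ _,
    dist_le (by norm_num) fun j => ?_⟩
  by_cases h6 : j = a
  · rw [h6, F, md_a h, hs, ← h3, ← sub_mul, abs_mul]
    exact (mul_le_of_le_one_right (abs_nonneg _) (abs_cos_le_one _)).trans hR
  by_cases h7 : j = b
  · rw [h7, F, md_b h, hs, ← h4, ← sub_mul, abs_mul]
    exact (mul_le_of_le_one_right (abs_nonneg _) (abs_sin_le_one _)).trans hR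
  rw [F, md_o h6 h7, md_o h6 h7]
  simp

lemma Om_conn {a b : Fin n} (h : a ≠ b) : IsConnected (Om a b) :=
  (Om_convex a b).isConnected ⟨md a b (fun _ => 0) (fun _ => 2) 0, by
    simp [md_a h, pi_pos], by simp [md_b h]⟩

theorem main (n : ℕ) (hn : 3 ≤ n) : ∃ (Ω : Set (V n)) (f : V n → V n) (K : ℝ) (X : Set (V n)),
    IsOpen Ω ∧ IsConnected Ω ∧ IsOpen (f '' Ω) ∧ IsConnected (f '' Ω) ∧
    Topology.IsEmbedding (fun x : Ω => f x) ∧ ContDiffOn ℝ 1 f Ω ∧ 1 ≤ K ∧
    (∀ x ∈ Ω, ‖fderiv ℝ f x‖ ^ n ≤ K * (fderiv ℝ f x).det) ∧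
    X ⊆ Ω ∧ Nag X (n - 1) ∧ IsLeast {d | Nag (f '' X) d} n := by
  obtain ⟨k, rfl⟩ : ∃ k, n = k + 1 := ⟨n - 1, by omega⟩
  have h : (0 : Fin (k + 1)) ≠ Fin.last k := by
    intro h
    have := congrArg Fin.val h
    simp at this
    omega
  have hp : (1 : ℝ) ≤ 17 ^ (k + 1) := one_le_pow₀ (by norm_num)
  refine ⟨Om 0 (Fin.last k), F 0 (Fin.last k), 2 * 17 ^ (k + 1), {x | x 0 = 0 ∧ 1 < x (Fin.last k)},
    Om_open _ _, Om_conn h, ?_, (Om_conn h).image _ (F_cont _ _), (F_emb h).isEmbedding,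
    fun x hx => (F_smooth _ _ hx).contDiffWithinAt, by linarith, fun x hx => ?_,
    fun x hx => ⟨by rw [hx.1, abs_zero]; exact pi_pos, hx.2⟩, ?_, ?_, fun d hd => ?_⟩
  · rw [image_eq_range]
    exact (F_emb h).isOpen_range
  · obtain ⟨h1, h2⟩ := F_deriv h hx
    refine (pow_le_pow_left₀ (norm_nonneg _) h1 _).trans ?_
    nlinarith
  · have := upper (X := {x : V (k + 1) | x 0 = 0 ∧ 1 < x (Fin.last k)})
      (fun x (j : Fin k) => x j.succ) ((k + 1 : ℕ) + 1) (by positivity) (fun x y j => le_dist x y _)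
      (fun x hx y hy t ht h => dist_le ht fun j => by
        refine Fin.cases ?_ h j
        rw [hx.1, hy.1, sub_zero, abs_zero]
        exact ht)
    simpa using this
  · have := upper (X := F 0 (Fin.last k) '' {x : V (k + 1) | x 0 = 0 ∧ 1 < x (Fin.last k)})
      (fun x j => x j) ((k + 1 : ℕ) + 1) (by positivity) le_dist
      (fun x _ y _ t ht h => dist_le ht h)
    simpa using this
  · by_contra hlt
    refine lower (k := k) (fun x => WithLp.toLp 2 fun j => (x j : ℝ)) (((k + 1 : ℕ) + 1) * 14)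
      (((k + 1 : ℕ) + 1) * 1) (fun x y j => le_dist (WithLp.toLp 2 fun j => (x j : ℝ))
        (WithLp.toLp 2 fun j => (y j : ℝ)) j) (fun x y h => dist_le zero_le_one
        fun j => by simp only; exact_mod_cast h j) (fun x => ?_) (Nag.mono hd (by omega))
    obtain ⟨y, h1, h2, -, h3⟩ := F_net h (WithLp.toLp 2 fun j => (x j : ℝ))
    exact ⟨_, ⟨y, ⟨h1, h2⟩, rfl⟩, h3⟩

end Pool.Agent.H.MP_a3803f_an
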